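import Pool.Agent.V7H44.DV.Conv

/-!
# Modularity of elliptic curves over (imaginary quadratic) number fields: one place decides

Let `M / K` be a finite extension of number fields, `p` a prime number, `S` a set of finite places and
`w` one place of `M` which does not split completely in any cyclic extension of `M` of degree `p`
unramified at the finite places not in `S` (`NonSplit`; for finite `S` this is a finite computation in
the class group and the `S`-units of `M`, and the theorem needs nothing else). Examples are given in
(1): `p = 2`, `w` above `2`, and `M = ℚ(√-d)`, `S = {2}`, where `d` is a prime number that is `7` modulo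
`16` or the product of a prime `5` modulo `8` and a prime `3` modulo `8` (then `2` splits in `M`, and `w`
is ONE of the two places), or `M` contained in a `2`-extension of `ℚ` unramified outside `{2, q, ∞}`,
`S = {2, q}`, `q` a prime number that is `3` or `5` modulo `8`, for instance the imaginary quadratic
fields `ℚ(√-1)`, `ℚ(√-2)`, `ℚ(√-q)`, `ℚ(√-2q)`; and with `M` all the fields in the `p`-extensions of `M`
unramified outside `S`.

Let `ρ`, `ρ'` be continuous representations of `G_K` of dimensions `n`, `n'`, over the fraction field
`F` of a Noetherian local domain `A` with finite residue field of characteristic `p` (for example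
`F = ℚ_p`), whose restrictions to `G_M` are residually unipotent and unramified outside `S`. This is
so for `V_p(E)`, for the elliptic curves `E / K` which have good reduction outside `S` over `M` and such
that the points of order `p` generate a `p`-extension of `M` (for `p = 2`: `E` has a point of order `2`
over `M`; any `E` is allowed if `M ⊇ K(E[p])`), and for the Galois representations of the cuspidal
Bianchi newforms with the analogous property.

(2) The decomposition group of `w` is dense in `ρ(G_M)`.

(3) If `n = 2`, `ρ` is irreducible and potentially ordinary or multiplicative at the place `w`, then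
`ρ` is dihedral. So an elliptic curve `E / K` of the kind above which has potentially ordinary or
potentially multiplicative reduction at `w` has complex multiplication (over `K` or over a
quadratic extension of `K`), and it is modular in the sense of the problem if it has no CM by an order
in `K`.

(4) The traces of `ρ` and `ρ'` agree on `G_M` if they agree on the decomposition group of the one
place `w`. So (with `M = K`) `E` is modular by the newform `f` if and only if the traces of `V_p(E)` and
of the representation of `f` agree on the decomposition group of the one place `w`.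

(5) A linear map which commutes with the decomposition group of `w` commutes with `G_M`. So two
such elliptic curves are isogenous over `M` if and only if their `V_p` are isomorphic over `M_w`.

(6) Let `n = n'` and let all the endomorphisms of `ρ` over the finite extensions of `K` be
homotheties (for elliptic curves: no complex multiplication). If `ρ` and `ρ'` are isomorphic over a
finite extension of `M_w`, then `ρ'` is isomorphic to the twist of `ρ` by a character of finite order of
`G_K`. So if `V_p(E)` and `V_p(E')` are isomorphic over a finite extension of the one completion `M_w`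
and `E` is modular, then `E'` is modular (it is isogenous to a quadratic twist of `E`, by comparing the
determinants).

The deductions for elliptic curves and newforms from the theorems of Serre and Faltings and from
automorphic induction are not part of the formal proof. The starting library is used for the
families in (1) and for the representation theory of stable lines.
-/

set_option autoImplicit false

open IsLocalRing Matrix

namespace Pool.Agent.Results.MP_87c685_nt.OnePlaceH44

open Pool.Agent.V7H44.DVS

/-- **One place decides.** -/
theorem result :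
    -- (1) the criterion: two families, and inheritance in `p`-extensions
    ((∀ d : ℕ, ((d.Prime ∧ d % 16 = 7) ∨
        ∃ a b : ℕ, a.Prime ∧ b.Prime ∧ a % 8 = 5 ∧ b % 8 = 3 ∧ d = a * b) →
        ∀ s : QBar, s ^ 2 = -(d : QBar) → ∀ H : Subgroup AbsGal, (∀ σ, σ ∈ H ↔ app σ s = s) →
          ∀ ι : Place 2, NonSplit 2 H (outside (above {2})) (Dec ι)) ∧
      (∀ q : ℕ, q.Prime → q % 8 = 3 ∨ q % 8 = 5 → ∀ ι : Place 2,
          NonSplit 2 (⊤ : Subgroup AbsGal) (outside (above {2, q})) (Dec ι)) ∧
      (∀ (p ℓ : ℕ) [Fact p.Prime] [Fact ℓ.Prime] (K L : Subgroup AbsGal), IsOpen (K : Set AbsGal) →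
        ∀ (S : PlaceSet) (ι : Place ℓ), IsPlaceSet K S → NonSplit p K (outside S) (Dec ι) →
          InPExtension p K L (outside S) → NonSplit p L (outside S) (Dec ι))) ∧
    -- `K` and `M` are number fields with absolute Galois groups `H` and `H'`
    ∀ (p ℓ : ℕ) [Fact p.Prime] [Fact ℓ.Prime] (H H' : Subgroup AbsGal), H' ≤ H →
      IsOpen (H' : Set AbsGal) →
    ∀ (S : PlaceSet) (ι : Place ℓ), NonSplit p H' (outside S) (Dec ι) →
    ∀ (A F : Type) [CommRing A] [IsLocalRing A] [TopologicalSpace A] [Field F] [Algebra A F],
      Coefficients p A F →
    -- (2) density of the decomposition group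
    (∀ (n : ℕ) (ρ : AbsGal → Matrix (Fin n) (Fin n) A), IsRep H H' (outside S) ρ →
      ∀ (m : ℕ), ∀ σ ∈ H', ∃ δ ∈ H', δ ∈ Dec ι ∧ ∀ i j, ρ σ i j - ρ δ i j ∈ maximalIdeal A ^ m) ∧
    -- (3) potentially ordinary representations are dihedral
    (∀ ρ : AbsGal → Matrix (Fin 2) (Fin 2) A, IsRep H H' (outside S) ρ → Irreducible F H ρ →
      PotentiallyOrdinary F H ρ {δ | δ ∈ H' ∧ δ ∈ Dec ι} → Dihedral F H ρ) ∧
    (∀ (n n' : ℕ) (ρ : AbsGal → Matrix (Fin n) (Fin n) A)
      (ρ' : AbsGal → Matrix (Fin n') (Fin n') A), IsRep H H' (outside S) ρ →
      IsRep H H' (outside S) ρ' →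
      -- (4) traces
      ((∀ δ ∈ H', δ ∈ Dec ι → (ρ δ).trace = (ρ' δ).trace) →
        ∀ σ ∈ H', (ρ σ).trace = (ρ' σ).trace) ∧
      -- (5) maps
      ∀ X : Matrix (Fin n') (Fin n) F, (∀ δ ∈ H', δ ∈ Dec ι → Commutes F ρ ρ' X δ) →
        ∀ σ ∈ H', Commutes F ρ ρ' X σ) ∧
    -- (6) potential isomorphisms
    ∀ n : ℕ, 0 < n → ∀ ρ ρ' : AbsGal → Matrix (Fin n) (Fin n) A, IsRep H H' (outside S) ρ →
      IsRep H H' (outside S) ρ' → NoEndomorphisms F H ρ →
      ∀ X : Matrix (Fin n) (Fin n) F, IsUnit X →
      (∃ D' : Subgroup AbsGal, FinitelyCovered H {δ | δ ∈ H' ∧ δ ∈ Dec ι} D' ∧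
        ∀ δ ∈ D', Commutes F ρ ρ' X δ) → IsTwist F H ρ ρ' X := by
  refine ⟨⟨fun d hd s hs H hH ι => family_quad hd hs H hH ι,
    fun q hq hq8 ι => family_two hq hq8 ι,
    fun p ℓ _ _ K L hK S ι hS h hL => ?_⟩, ?_⟩
  · rw [← coe_DecS] at h ⊢
    exact inherit hK (fun t ht r hr => outside_conj hS t ht r hr) h hL
  · intro p ℓ _ _ H H' hH hH' S ι h A F _ _ _ _ _ hA
    rw [← coe_DecS] at h
    exact ⟨fun n ρ hρ m σ hσ => density hA hH hH' h hρ m σ hσ,
      fun ρ hρ hirr ho => dihedral hA hH hH' h hρ hirr ho,
      fun n n' ρ ρ' hρ hρ' => ⟨fun ht σ hσ => traces hA hH hH' h hρ hρ' ht σ hσ,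
        fun X hX σ hσ => maps hA hH hH' h hρ hρ' X hX σ hσ⟩,
      fun n hn ρ ρ' hρ hρ' hend X hX hD => twists hA hH hH' h hn hρ hρ' hend X hX hD⟩

end Pool.Agent.Results.MP_87c685_nt.OnePlaceH44
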