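import Mathlib
import Pool.Agent.V7H16.PP.All
import Pool.Agent.V7H16.PD.All

/-!
# More than a tenth of the imaginary quadratic fields

Caraiani and Newton proved that all elliptic curves over an imaginary quadratic field `K` are modular if the elliptic
curve `X_0(15)` has only finitely many points over `K`.  We prove that `X_0(15)(K)` is finite if 3 is not inert in `K`,
5 is not split in `K` and the discriminant of `K` has no decomposition of the second kind in the sense of Rédei (by the
theorem of Rédei and Reichardt this says that there is no ideal class of order four).  This is so for at least the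
proportion `(1 - 1/2) (1 - 1/4) (1 - 1/8) ⋯ = 0.2887...` of the fields in which 3 is not inert and 5 is not split, and
so for more than 10.5% of all imaginary quadratic fields, if the fields `ℚ(√-d)`, `d` squarefree, are ordered by `d`, and
also if they are ordered by the absolute value of the discriminant.

The proof is a complete two-descent: the differences of the roots of the cubic for `X_0(15)` are, up to sign, the squares
9, 16 and 25, and so the 2-Selmer group of the twist by `-d` splits into the right and the left kernel of the Rédei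
matrix of the discriminant.
-/

set_option autoImplicit false

open WeierstrassCurve

namespace Pool.Agent.Results.MP_87c685_nt.ProportionH16

/-- the modular curve `X_0(15)` over `K`, as the elliptic curve `y² + xy + y = x³ + x² - 10x - 10`
(Cremona label 15a1) -/
def X015 (K : Type) [Field K] : WeierstrassCurve K := ⟨1, 1, 1, -10, -10⟩

/-- `X_0(15)` has only finitely many points over the quadratic field `ℚ(√-d)` -/
def FinitelyMany (d : ℕ) : Prop :=
  ∀ (K : Type) [Field K] [NumberField K], Module.finrank ℚ K = 2 → (∃ s : K, s ^ 2 = -(d : K)) →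
    Finite (X015 K).toAffine.Point

/-- `d` is squarefree, 3 is not inert and 5 is not split in `ℚ(√-d)` -/
def Family (d : ℕ) : Prop := Squarefree d ∧ d % 3 ≠ 1 ∧ d % 5 ≠ 1 ∧ d % 5 ≠ 4

/-- the discriminant of `ℚ(√-d)` for squarefree `d` -/
def disc (d : ℕ) : ℤ := if d % 4 = 3 then -(d : ℤ) else -4 * d

/-- the prime `p` splits in the quadratic field of discriminant `E` -/
def Splits (E : ℤ) (p : ℕ) : Prop :=
  if p = 2 then E % 8 = 1 else ¬(p : ℤ) ∣ E ∧ IsSquare (E : ZMod p)

/-- the discriminant `D` is not a product of two discriminants, both different from 1, such that the prime factors of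
each of them split in the quadratic field of the other one -/
def NoDecomposition (D : ℤ) : Prop :=
  ∀ D₁ D₂ : ℤ, D₁ * D₂ = D → (D₁ % 4 = 0 ∨ D₁ % 4 = 1) → (D₂ % 4 = 0 ∨ D₂ % 4 = 1) →
    (∀ p : ℕ, p.Prime → (p : ℤ) ∣ D₂ → Splits D₁ p) →
    (∀ p : ℕ, p.Prime → (p : ℤ) ∣ D₁ → Splits D₂ p) → D₁ = 1 ∨ D₂ = 1

/-- the number of the positive integers at most `X` with the property `P` -/
noncomputable def number (P : ℕ → Prop) (X : ℕ) : ℕ := {d : ℕ | 1 ≤ d ∧ d ≤ X ∧ P d}.ncard

/-- the number of the positive integers `d` with `|disc d|` at most `X` and with the property `P` (if `P` contains that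
`d` is squarefree: the number of the imaginary quadratic fields `ℚ(√-d)` with this property and with a discriminant of
absolute value at most `X`) -/
noncomputable def fields (P : ℕ → Prop) (X : ℕ) : ℕ := {d : ℕ | 1 ≤ d ∧ (disc d).natAbs ≤ X ∧ P d}.ncard

lemma number_of (P : ℕ → Prop) (X : ℕ) (T : Finset ℕ)
    (h : ∀ d, d ∈ T ↔ (1 ≤ d ∧ d ≤ X) ∧ P d) : number P X = T.card := by
  unfold number
  rw [← Set.ncard_coe_finset]
  congr 1
  ext d
  rw [Finset.mem_coe, h, and_assoc]
  rfl

open scoped Classical in
lemma number_fam (X : ℕ) : number Family X = (Pool.Agent.V7H16.PP.AA X).card := by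
  refine number_of _ X _ fun d => ?_
  unfold Pool.Agent.V7H16.PP.AA
  rw [Finset.mem_filter, Finset.mem_Icc]
  exact Iff.rfl

open scoped Classical in
lemma number_fin (X : ℕ) : number (fun d => Family d ∧ FinitelyMany d) X =
    ((Pool.Agent.V7H16.PP.AA X).filter Pool.Agent.V7H16.PP.Fi).card := by
  refine number_of _ X _ fun d => ?_
  unfold Pool.Agent.V7H16.PP.AA
  rw [Finset.mem_filter, Finset.mem_filter, Finset.mem_Icc, and_assoc]
  exact Iff.rfl

open scoped Classical in
lemma number_sqf (X : ℕ) : number Squarefree X = ((Finset.Icc 1 X).filter Squarefree).card := by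
  refine number_of _ X _ fun d => ?_
  rw [Finset.mem_filter, Finset.mem_Icc]

lemma natAbs_disc (d : ℕ) : (disc d).natAbs = Pool.Agent.V7H16.PD.dabs d := by
  unfold disc Pool.Agent.V7H16.PD.dabs
  split_ifs
  · rw [Int.natAbs_neg, Int.natAbs_natCast]
  · rw [Int.natAbs_mul, Int.natAbs_natCast]
    rfl

lemma fields_of (P : ℕ → Prop) (X : ℕ) (T : Finset ℕ)
    (h : ∀ d, d ∈ T ↔ (1 ≤ d ∧ d ≤ X) ∧ Pool.Agent.V7H16.PD.dabs d ≤ X ∧ P d) : fields P X = T.card := by
  unfold fields
  rw [← Set.ncard_coe_finset]
  congr 1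
  ext d
  rw [Finset.mem_coe, h]
  change (1 ≤ d ∧ (disc d).natAbs ≤ X ∧ P d) ↔ _
  rw [natAbs_disc]
  constructor
  · rintro ⟨h1, h2, h3⟩
    refine ⟨⟨h1, ?_⟩, h2, h3⟩
    rcases Pool.Agent.V7H16.PD.dabs_le.1 h2 with h4 | h4 <;> omega
  · rintro ⟨⟨h1, -⟩, h2, h3⟩
    exact ⟨h1, h2, h3⟩

open scoped Classical in
lemma fields_fam (X : ℕ) : fields Family X = (Pool.Agent.V7H16.PD.AD X).card := by
  refine fields_of _ X _ fun d => ?_
  unfold Pool.Agent.V7H16.PD.AD
  rw [Finset.mem_filter, Finset.mem_Icc]
  exact Iff.rfl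

open scoped Classical in
lemma fields_fin (X : ℕ) : fields (fun d => Family d ∧ FinitelyMany d) X =
    ((Pool.Agent.V7H16.PD.AD X).filter Pool.Agent.V7H16.PP.Fi).card := by
  refine fields_of _ X _ fun d => ?_
  unfold Pool.Agent.V7H16.PD.AD
  constructor
  · intro h
    obtain ⟨h1, h2⟩ := Finset.mem_filter.1 h
    obtain ⟨h3, h4, h5⟩ := Finset.mem_filter.1 h1
    exact ⟨Finset.mem_Icc.1 h3, h4, h5, h2⟩
  · rintro ⟨h3, h4, h5, h2⟩
    exact Finset.mem_filter.2 ⟨Finset.mem_filter.2 ⟨Finset.mem_Icc.2 h3, h4, h5⟩, h2⟩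

open scoped Classical in
lemma fields_sqf (X : ℕ) : fields Squarefree X = (Pool.Agent.V7H16.PD.AG (fun _ => True) X).card := by
  refine fields_of _ X _ fun d => ?_
  rw [Pool.Agent.V7H16.PD.mem_AG, and_true]

/-- **More than a tenth of the imaginary quadratic fields.** (1) If `d` is squarefree, 3 is not inert and 5 is not split
in `K = ℚ(√-d)` and the discriminant of `K` has no decomposition of the second kind, then `X_0(15)(K)` is finite.
(2) The lower proportion of the `K` with `X_0(15)(K)` finite among the `K` in which 3 is not inert and 5 is not split is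
at least `∏ (1 - 2^(-i))`, in the order of the `d` and in the order of the discriminants. (3) In both orders, from some
point on, `X_0(15)(K)` is finite for at least 10.5% of all imaginary quadratic fields `K`. -/
theorem result :
    (∀ d : ℕ, Family d → NoDecomposition (disc d) → FinitelyMany d) ∧
    (∀ ε : ℝ, 0 < ε → ∃ X₀ : ℕ, ∀ X : ℕ, X₀ ≤ X →
      ((∏' i : ℕ, (1 - (1 / 2 : ℝ) ^ (i + 1))) - ε) * number Family X ≤
        number (fun d => Family d ∧ FinitelyMany d) X ∧
      ((∏' i : ℕ, (1 - (1 / 2 : ℝ) ^ (i + 1))) - ε) * fields Family X ≤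
        fields (fun d => Family d ∧ FinitelyMany d) X) ∧
    (∃ X₀ : ℕ, ∀ X : ℕ, X₀ ≤ X →
      (105 / 1000 : ℝ) * number Squarefree X ≤ number (fun d => Family d ∧ FinitelyMany d) X ∧
      (105 / 1000 : ℝ) * fields Squarefree X ≤ fields (fun d => Family d ∧ FinitelyMany d) X) := by
  classical
  refine ⟨?_, ?_, ?_⟩
  · intro d hd hN K _ _ h2 hs
    exact Pool.Agent.V7H16.PP.fin_noDec hd.1 hd.2 hN K h2 hs
  · intro ε hε
    obtain ⟨X₀, h⟩ := Filter.eventually_atTop.1 ((Pool.Agent.V7H16.PP.main_density ε hε).and
      (Pool.Agent.V7H16.PD.main_density ε hε))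
    refine ⟨X₀, fun X hX => ?_⟩
    obtain ⟨h1, h2⟩ := h X hX
    rw [number_fam, number_fin, fields_fam, fields_fin]
    constructor
    · convert h1
      rfl
    · convert h2
      rfl
  · obtain ⟨X₀, h⟩ := Filter.eventually_atTop.1 (Pool.Agent.V7H16.PP.main_all.and
      Pool.Agent.V7H16.PD.main_all)
    refine ⟨X₀, fun X hX => ?_⟩
    obtain ⟨h1, h2⟩ := h X hX
    rw [number_sqf, number_fin, fields_sqf, fields_fin, show (105 / 1000 : ℝ) = 21 / 200 by norm_num]
    constructor
    · convert h1
    · convert h2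

end Pool.Agent.Results.MP_87c685_nt.ProportionH16
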