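import Mathlib
import Pool.Agent.V7H37.XE.Ex

/-!
# Imaginary quadratic fields `ℚ(√-d)`, `d` divisible by `2`, `3` or `5`, over which `X_0(15)` has finitely many points

Caraiani and Newton proved that all elliptic curves over an imaginary quadratic field `K` are modular if the elliptic
curve `X_0(15)` has only finitely many points over `K`.  The hand-in `RankZeroFieldsH16` shows that this is so for many
fields `K = ℚ(√-d)` with `d` prime to `30`.  Here the greatest common divisor `f` of `d` and `30` is any divisor of `30`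
different from `1`.

For a number `p` prime to `30` let `kind p` be `1`, `2`, `7` or `11` if `p` is congruent to `1` or `4`, to `2` or `8`, to
`7` or `13`, to `11` or `14` modulo `15`.  The table `table` consists of 37 triples `(f, r, κ)`.

* If `p` is a prime and `(f, p mod 8, kind p)` is in the table, then `X_0(15)` has only finitely many points over
  `ℚ(√-(f p))`.
* The same for `ℚ(√-(f p Q))`, if `Q` is a squarefree product of primes different from `p` which are `1` or `49` modulo
  `120`, and for every divisor `a ≠ 1` of `Q`, either `a` is not a square modulo some prime divisor of `Q / a`, or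
  `f p Q / a` is not a square modulo some prime divisor of `a`.
* For every class of `p` modulo a multiple `M` of `120` which is allowed by the table, and for every `k`, there are such
  `p` and `Q` with exactly `k` prime divisors of `Q`, and with all primes arbitrarily large.

The proof is a complete two-descent on the twist of `X_0(15)`: the Selmer condition at infinity, at `2`, `3` and `5`
(congruences modulo `32`, `9` and `25`), at `p` and at the primes dividing `Q`.  The finite part is checked by the kernel.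
-/

set_option autoImplicit false

open WeierstrassCurve

namespace Pool.Agent.Results.MP_87c685_nt.RamifiedFieldsH37

/-- the modular curve `X_0(15)` over `K`, as the elliptic curve `y² + xy + y = x³ + x² - 10x - 10`
(Cremona label 15a1) -/
def X015 (K : Type) [Field K] : WeierstrassCurve K := ⟨1, 1, 1, -10, -10⟩

/-- `X_0(15)` has only finitely many points over the quadratic field `ℚ(√-d)` -/
def FinitelyMany (d : ℕ) : Prop :=
  ∀ (K : Type) [Field K] [NumberField K], Module.finrank ℚ K = 2 → (∃ s : K, s ^ 2 = -(d : K)) →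
    Finite (X015 K).toAffine.Point

/-- the class of `p` modulo `15` up to squares: `1, 4 ↦ 1`, `2, 8 ↦ 2`, `7, 13 ↦ 7`, `11, 14 ↦ 11` -/
def kind (p : ℕ) : ℕ :=
  if p % 15 = 1 ∨ p % 15 = 4 then 1
  else if p % 15 = 2 ∨ p % 15 = 8 then 2
  else if p % 15 = 7 ∨ p % 15 = 13 then 7
  else if p % 15 = 11 ∨ p % 15 = 14 then 11
  else 0

/-- the triples `(f, p mod 8, kind p)` -/
def table : List (ℕ × ℕ × ℕ) :=
  [(2, 1, 2), (2, 3, 1), (2, 5, 1), (2, 7, 2),
   (3, 1, 11), (3, 3, 1), (3, 3, 11), (3, 5, 11), (3, 7, 1),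
   (5, 1, 7), (5, 3, 7), (5, 7, 7),
   (6, 1, 2), (6, 5, 7), (6, 5, 2), (6, 7, 7),
   (10, 1, 2), (10, 3, 11), (10, 3, 2), (10, 5, 11), (10, 5, 2), (10, 7, 2),
   (15, 1, 7), (15, 1, 11), (15, 1, 2), (15, 3, 11), (15, 5, 7), (15, 5, 11), (15, 5, 2), (15, 7, 7), (15, 7, 2),
   (30, 1, 7), (30, 1, 11), (30, 3, 11), (30, 5, 1), (30, 7, 1), (30, 7, 7)]

/-- `(f, p mod 8, kind p)` is in the table -/
def Allowed (f p : ℕ) : Prop := (f, p % 8, kind p) ∈ table

/-- `f p Q` has no decomposition of the second kind along `Q` -/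
def NoDecomposition (f p Q : ℕ) : Prop :=
  ∀ a : ℕ, a ∣ Q → a ≠ 1 → ∃ q : ℕ, q.Prime ∧
    ((q ∣ Q / a ∧ ¬IsSquare ((a : ℕ) : ZMod q)) ∨ (q ∣ a ∧ ¬IsSquare ((f * (p * Q) / a : ℕ) : ZMod q)))

section

open Pool.Agent.V7H37.XE

lemma table_ok8 : ∀ t ∈ table, t.2.1 = 1 ∨ t.2.1 = 3 ∨ t.2.1 = 5 ∨ t.2.1 = 7 := by decide
lemma table_ok0 : ∀ t ∈ table, t.2.2 ≠ 0 := by decide
lemma table_ok1 : ∀ t ∈ table, t.2.2 = 1 → (t.1, t.2.1, 1, 1) ∈ Tab := by decide
lemma table_ok2 : ∀ t ∈ table, t.2.2 = 2 → (t.1, t.2.1, 2, 2) ∈ Tab := by decide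
lemma table_ok7 : ∀ t ∈ table, t.2.2 = 7 → (t.1, t.2.1, 1, 2) ∈ Tab := by decide
lemma table_ok11 : ∀ t ∈ table, t.2.2 = 11 → (t.1, t.2.1, 2, 1) ∈ Tab := by decide

lemma bridge {f p : ℕ} (h : Allowed f p) : (f, p % 8, p % 3, c5 p) ∈ Tab ∧
    (p % 2 = 1 ∧ p % 3 ≠ 0 ∧ p % 5 ≠ 0) := by
  have h8 := table_ok8 _ h
  have k1 := table_ok1 _ h
  have k2 := table_ok2 _ h
  have k7 := table_ok7 _ h
  have k11 := table_ok11 _ h
  have k0 := table_ok0 _ h
  dsimp only at h8 k1 k2 k7 k11 k0
  have hodd : p % 2 = 1 := by omega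
  unfold kind at k1 k2 k7 k11 k0
  have h15 : p % 15 = 1 ∨ p % 15 = 4 ∨ p % 15 = 2 ∨ p % 15 = 8 ∨ p % 15 = 7 ∨ p % 15 = 13 ∨
      p % 15 = 11 ∨ p % 15 = 14 := by
    by_contra hcon
    push Not at hcon
    apply k0
    rw [if_neg (by omega), if_neg (by omega), if_neg (by omega), if_neg (by omega)]
  rcases h15 with e | e | e | e | e | e | e | e
  · have e3 : p % 3 = 1 := by omega
    have e5 : p % 5 = 1 := by omega
    have ec : c5 p = 1 := by unfold c5; rw [if_pos (by omega)]
    rw [e3, ec]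
    exact ⟨k1 (by rw [if_pos (by omega)]), hodd, by omega, by omega⟩
  · have e3 : p % 3 = 1 := by omega
    have e5 : p % 5 = 4 := by omega
    have ec : c5 p = 1 := by unfold c5; rw [if_pos (by omega)]
    rw [e3, ec]
    exact ⟨k1 (by rw [if_pos (by omega)]), hodd, by omega, by omega⟩
  · have e3 : p % 3 = 2 := by omega
    have e5 : p % 5 = 2 := by omega
    have ec : c5 p = 2 := by unfold c5; rw [if_neg (by omega)]
    rw [e3, ec]
    exact ⟨k2 (by rw [if_neg (by omega), if_pos (by omega)]), hodd, by omega, by omega⟩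
  · have e3 : p % 3 = 2 := by omega
    have e5 : p % 5 = 3 := by omega
    have ec : c5 p = 2 := by unfold c5; rw [if_neg (by omega)]
    rw [e3, ec]
    exact ⟨k2 (by rw [if_neg (by omega), if_pos (by omega)]), hodd, by omega, by omega⟩
  · have e3 : p % 3 = 1 := by omega
    have e5 : p % 5 = 2 := by omega
    have ec : c5 p = 2 := by unfold c5; rw [if_neg (by omega)]
    rw [e3, ec]
    exact ⟨k7 (by rw [if_neg (by omega), if_neg (by omega), if_pos (by omega)]), hodd, by omega,
      by omega⟩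
  · have e3 : p % 3 = 1 := by omega
    have e5 : p % 5 = 3 := by omega
    have ec : c5 p = 2 := by unfold c5; rw [if_neg (by omega)]
    rw [e3, ec]
    exact ⟨k7 (by rw [if_neg (by omega), if_neg (by omega), if_pos (by omega)]), hodd, by omega,
      by omega⟩
  · have e3 : p % 3 = 2 := by omega
    have e5 : p % 5 = 1 := by omega
    have ec : c5 p = 1 := by unfold c5; rw [if_pos (by omega)]
    rw [e3, ec]
    exact ⟨k11 (by rw [if_neg (by omega), if_neg (by omega), if_neg (by omega), if_pos (by omega)]),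
      hodd, by omega, by omega⟩
  · have e3 : p % 3 = 2 := by omega
    have e5 : p % 5 = 4 := by omega
    have ec : c5 p = 1 := by unfold c5; rw [if_pos (by omega)]
    rw [e3, ec]
    exact ⟨k11 (by rw [if_neg (by omega), if_neg (by omega), if_neg (by omega), if_pos (by omega)]),
      hodd, by omega, by omega⟩

lemma of_dat {f p Q : ℕ} (H : Dat f p Q) : FinitelyMany (f * (p * Q)) :=
  fun K _ _ h2 hs => fin_tw H.tw K h2 hs

lemma mk {f p Q : ℕ} (hA : Allowed f p) (hp : p.Prime) (sQ : Squarefree Q)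
    (hg : ∀ q : ℕ, q.Prime → q ∣ Q → q % 120 = 1 ∨ q % 120 = 49) (hpQ : ¬p ∣ Q)
    (hR : NoDecomposition f p Q) : Dat f p Q where
  pp := hp
  p5 := by
    obtain ⟨-, h2, h3, h5⟩ := bridge hA
    have := hp.two_le
    by_contra hcon
    have : p = 2 ∨ p = 3 ∨ p = 4 ∨ p = 5 := by omega
    rcases this with rfl | rfl | rfl | rfl
    · omega
    · omega
    · omega
    · omega
  sQ := sQ
  gQ := hg
  pQ := hpQ
  tab := (bridge hA).1
  red := hR

end

theorem result :
    (∀ f p : ℕ, p.Prime → Allowed f p → FinitelyMany (f * p)) ∧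
    (∀ f p Q : ℕ, p.Prime → Allowed f p → Squarefree Q →
      (∀ q : ℕ, q.Prime → q ∣ Q → q % 120 = 1 ∨ q % 120 = 49) → ¬p ∣ Q → NoDecomposition f p Q →
      FinitelyMany (f * (p * Q))) ∧
    (∀ f M h k N : ℕ, 120 ∣ M → 0 < M → h.Coprime M → Allowed f h →
      ∃ p Q : ℕ, N < p ∧ p.Prime ∧ p ≡ h [MOD M] ∧ Allowed f p ∧ Squarefree Q ∧
        Q.primeFactors.card = k ∧ (∀ q : ℕ, q.Prime → q ∣ Q → N < q ∧ q % 120 = 1) ∧ ¬p ∣ Q ∧
        FinitelyMany (f * (p * Q))) := by
  refine ⟨?_, ?_, ?_⟩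
  · intro f p hp hA
    have := of_dat (mk (Q := 1) hA hp squarefree_one
      (fun q hq h => absurd (Nat.dvd_one.1 h) hq.one_lt.ne')
      (fun h => absurd (Nat.dvd_one.1 h) hp.one_lt.ne')
      (fun a ha ha1 => absurd (Nat.dvd_one.1 ha) ha1))
    rwa [mul_one] at this
  · intro f p Q hp hA sQ hg hpQ hR
    exact of_dat (mk hA hp sQ hg hpQ hR)
  · intro f M h k N hM hM0 hh hA
    obtain ⟨p, Q, h1, h2, h3, h4, H⟩ :=
      Pool.Agent.V7H37.XE.existence f M h k N hM hM0 hh (bridge hA).1
    have e8 : p % 8 = h % 8 := h2.of_dvd ((by norm_num : 8 ∣ 120).trans hM)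
    have e15 : p % 15 = h % 15 := h2.of_dvd ((by norm_num : 15 ∣ 120).trans hM)
    have hAp : Allowed f p := by
      unfold Allowed kind at *
      rw [e8, e15]
      exact hA
    exact ⟨p, Q, h1, H.pp, h2, hAp, H.sQ, h3, h4, H.pQ, of_dat H⟩

end Pool.Agent.Results.MP_87c685_nt.RamifiedFieldsH37
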