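import Mathlib
import Pool.Agent.V7H16.XF.Fin

/-!
# Imaginary quadratic fields over which the modular curve `X_0(15)` has only finitely many points

Caraiani and Newton proved that all elliptic curves over an imaginary quadratic field `K` are modular if the elliptic
curve `X_0(15)` has only finitely many points over `K`.  We prove by a complete two-descent (and Mordell-Weil) that this
is so for the following fields `K = ℚ(√-d)`.

* `d = p` is an odd prime which splits in `ℚ(√-15)` (`p` is congruent to 1, 2, 4 or 8 modulo 15), `p` not 1 modulo 8.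
  (These are three eighths of all primes.)
* `d` is squarefree, odd, not 1 modulo 8, congruent to 1, 2, 4 or 8 modulo 15, all prime factors of `d` but one, `p`,
  are congruent to 1 or 49 modulo 120, and there is no decomposition `d = a · (d / a)`, `p ∤ a`, `a ≠ 1`, such that `a`
  is a square modulo all prime factors of `d / a` and `d / a` is a square modulo all prime factors of `a` (a Rédei
  decomposition of the second kind).
* For every squarefree `n` prime to 30, every modulus `M` divisible by 120, every class `h` modulo `M` prime to `M` such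
  that `n h` is not 1 modulo 8 and is 1, 2, 4 or 8 modulo 15, and every `t` greater than the number of prime factors of
  `n` there are arbitrarily large `e` congruent to `h` modulo `M` with exactly `t` prime factors such that `n e` is
  squarefree and `d = n e` is as we wish.
-/

set_option autoImplicit false

open WeierstrassCurve

namespace Pool.Agent.Results.MP_87c685_nt.RankZeroFieldsH16

/-- the modular curve `X_0(15)` over `K`, as the elliptic curve `y² + xy + y = x³ + x² - 10x - 10`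
(Cremona label 15a1) -/
def X015 (K : Type) [Field K] : WeierstrassCurve K := ⟨1, 1, 1, -10, -10⟩

/-- `X_0(15)` has only finitely many points over the quadratic field `ℚ(√-d)` -/
def FinitelyMany (d : ℕ) : Prop :=
  ∀ (K : Type) [Field K] [NumberField K], Module.finrank ℚ K = 2 → (∃ s : K, s ^ 2 = -(d : K)) →
    Finite (X015 K).toAffine.Point

lemma of_crit {d p : ℕ} (H : Pool.Agent.V7H16.XF.Crit d p) : FinitelyMany d :=
  fun K _ _ h2 hs => Pool.Agent.V7H16.XF.fin_crit H K h2 hs

theorem two (d p : ℕ) (sf : Squarefree d) (pp : p.Prime) (pd : p ∣ d) (d2 : d % 2 = 1)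
    (h8 : d % 8 ≠ 1) (h15 : d % 15 = 1 ∨ d % 15 = 2 ∨ d % 15 = 4 ∨ d % 15 = 8)
    (hg : ∀ q : ℕ, q.Prime → q ∣ d → q ≠ p → q % 120 = 1 ∨ q % 120 = 49)
    (hR : ∀ a : ℕ, a ∣ d → ¬p ∣ a → a ≠ 1 → ∃ q : ℕ, q.Prime ∧
      ((q ∣ d / a ∧ ¬IsSquare ((a : ℕ) : ZMod q)) ∨
        (q ∣ a ∧ ¬IsSquare ((d / a : ℕ) : ZMod q)))) : FinitelyMany d :=
  of_crit (Pool.Agent.V7H16.XF.crit_redei sf pp pd (by omega) h8 h15 hg hR)

theorem result :
    (∀ p : ℕ, p.Prime → p % 2 = 1 → p % 8 ≠ 1 → (p % 15 = 1 ∨ p % 15 = 2 ∨ p % 15 = 4 ∨ p % 15 = 8) →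
      FinitelyMany p) ∧
    (∀ d p : ℕ, Squarefree d → p.Prime → p ∣ d → d % 2 = 1 → d % 8 ≠ 1 →
      (d % 15 = 1 ∨ d % 15 = 2 ∨ d % 15 = 4 ∨ d % 15 = 8) →
      (∀ q : ℕ, q.Prime → q ∣ d → q ≠ p → q % 120 = 1 ∨ q % 120 = 49) →
      (∀ a : ℕ, a ∣ d → ¬p ∣ a → a ≠ 1 → ∃ q : ℕ, q.Prime ∧
        ((q ∣ d / a ∧ ¬IsSquare ((a : ℕ) : ZMod q)) ∨
          (q ∣ a ∧ ¬IsSquare ((d / a : ℕ) : ZMod q)))) → FinitelyMany d) ∧
    (∀ n M h t N : ℕ, Squarefree n → n.Coprime 30 → 120 ∣ M → 0 < M → h.Coprime M →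
      (n * h) % 8 ≠ 1 →
      ((n * h) % 15 = 1 ∨ (n * h) % 15 = 2 ∨ (n * h) % 15 = 4 ∨ (n * h) % 15 = 8) →
      n.primeFactors.card < t →
      ∃ e : ℕ, N < e ∧ e ≡ h [MOD M] ∧ Squarefree (n * e) ∧ e.primeFactors.card = t ∧
        FinitelyMany (n * e)) := by
  refine ⟨?_, two, ?_⟩
  · intro p hp h2 h8 h15
    apply two p p hp.prime.irreducible.squarefree hp dvd_rfl h2 h8 h15
    · intro q hq hqp hne
      exact absurd ((Nat.prime_dvd_prime_iff_eq hq hp).1 hqp) hne
    · intro a ha hpa ha1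
      rcases (Nat.dvd_prime hp).1 ha with h | h
      · exact absurd h ha1
      · exact absurd (by rw [h]) hpa
  · intro n M h t N hn h30 hM hM0 hh h8 h15 ht
    obtain ⟨e, h1, h2, h3, h4, p, h5⟩ :=
      Pool.Agent.V7H16.XF.existence n M h t N hn h30 hM hM0 hh h8 h15 ht
    exact ⟨e, h1, h2, h3, h4, of_crit h5⟩

end Pool.Agent.Results.MP_87c685_nt.RankZeroFieldsH16
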